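import Pool.Agent.H.MP_1b26ca_an.G

namespace Pool.Agent.Results.MP_1b26ca_an.Yes
open Pool.Agent.H.MP_1b26ca_an

theorem result (k : ℕ) : ∃ A : Set ℕ, (∀ n ∈ A, 1 ≤ n) ∧ Interp (k + 1) A ∧ ¬ Interp k A :=
  ⟨EE k, EE_pos k, interp k, not_interp k _ (aa_inj k) (EE_pos k)⟩

end Pool.Agent.Results.MP_1b26ca_an.Yes
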